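import Mathlib

/-!
Breadth first search in the bipartite double cover of a Schreier graph.
-/

namespace Pool.Agent.V1119.Flood

variable {G X : Type*} [Group G] [MulAction G X]

/-- One-step neighbours of a set under a set `Xi` of group elements. -/
def nb (Xi : Set G) (A : Set X) : Set X := {z | ∃ h ∈ Xi, ∃ c ∈ A, z = h • c}

/-- `S 0 = ∅`, `S 1 = {y}`, and `S (n+2)` is the set of neighbours of `S (n+1)`: points reached from
`y` by walks of length exactly `n+1`. -/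
def S (Xi : Set G) (y : X) : ℕ → Set X
  | 0 => ∅
  | 1 => {y}
  | (n+2) => nb Xi (S Xi y (n+1))

theorem nb_mono {Xi : Set G} {A B : Set X} (h : A ⊆ B) : nb Xi A ⊆ nb Xi B := by
  rintro z ⟨g, hg, c, hc, rfl⟩
  exact ⟨g, hg, c, h hc, rfl⟩

theorem nb_S_subset (Xi : Set G) (y : X) (n : ℕ) : nb Xi (S Xi y n) ⊆ S Xi y (n+1) := by
  cases n with
  | zero => rintro z ⟨g, hg, c, hc, rfl⟩; exact absurd hc (by simp [S])
  | succ n => exact subset_of_eq rfl

theorem S_step (Xi : Set G) (hsymm : ∀ h ∈ Xi, h⁻¹ ∈ Xi) (hne : Xi.Nonempty) (y : X) (n : ℕ) :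
    S Xi y n ⊆ S Xi y (n+2) := by
  induction n with
  | zero => intro z hz; exact absurd hz (by simp [S])
  | succ n ih =>
    cases n with
    | zero =>
      intro z hz
      obtain ⟨h, hh⟩ := hne
      have hz' : z = y := hz
      subst hz'
      refine ⟨h, hh, h⁻¹ • z, ⟨h⁻¹, hsymm h hh, z, rfl, rfl⟩, by simp⟩
    | succ n =>
      exact nb_mono ih

/-- The layers. -/
def D (Xi : Set G) (y : X) (i : ℕ) : Set X := S Xi y (i+1) \ S Xi y (i-1)

theorem D_pred (Xi : Set G) (y : X) (n : ℕ) (h : (S Xi y (n+3) \ S Xi y (n+1)).Nonempty) :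
    (S Xi y (n+2) \ S Xi y n).Nonempty := by
  obtain ⟨z, ⟨g, hg, c, hc, rfl⟩, hz2⟩ := h
  refine ⟨c, hc, fun hc' => hz2 ?_⟩
  exact nb_S_subset Xi y n ⟨g, hg, c, hc', rfl⟩

theorem card_step (Xi : Set G) (hsymm : ∀ h ∈ Xi, h⁻¹ ∈ Xi) (hne : Xi.Nonempty) [Finite X]
    (y : X) (n : ℕ) (h : (S Xi y (n+3) \ S Xi y (n+1)).Nonempty) :
    (S Xi y n).ncard + 2 ≤ (S Xi y (n+2)).ncard := by
  obtain ⟨z, ⟨g, hg, c, hc, rfl⟩, hz2⟩ := h
  have hc' : c ∉ S Xi y n := fun hc' => hz2 (nb_S_subset Xi y n ⟨g, hg, c, hc', rfl⟩)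
  have hsub : S Xi y n ⊆ S Xi y (n+2) := S_step Xi hsymm hne y n
  by_contra hlt
  push Not at hlt
  -- S (n+2) = insert c (S n)
  have hins : insert c (S Xi y n) ⊆ S Xi y (n+2) := Set.insert_subset hc hsub
  have hcard1 : (insert c (S Xi y n)).ncard = (S Xi y n).ncard + 1 :=
    Set.ncard_insert_of_notMem hc' (Set.toFinite _)
  have heq : insert c (S Xi y n) = S Xi y (n+2) := by
    apply Set.eq_of_subset_of_ncard_le hins _ (Set.toFinite _)
    omega
  -- h' c ∈ S (n+1)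
  obtain ⟨k, hk, d, hd, hcd⟩ := hc
  have hk' : k⁻¹ • c = d := by rw [hcd]; simp
  -- k⁻¹ • S(n+2) ⊆ S (n+1)
  have h1 : (fun x => k⁻¹ • x) '' S Xi y (n+2) ⊆ S Xi y (n+1) := by
    rintro _ ⟨x, hx, rfl⟩
    rw [← heq] at hx
    rcases hx with rfl | hx
    · simp only [hk']; exact hd
    · exact nb_S_subset Xi y n ⟨k⁻¹, hsymm k hk, x, hx, rfl⟩
  have h1c : (S Xi y (n+2)).ncard ≤ (S Xi y (n+1)).ncard := by
    rw [← Set.ncard_image_of_injective (S Xi y (n+2)) (MulAction.injective (k⁻¹))]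
    exact Set.ncard_le_ncard h1 (Set.toFinite _)
  have hcmem : c ∈ S Xi y (n+2) := by rw [← heq]; exact Set.mem_insert _ _
  have h2 : (fun x => g⁻¹ • x) '' S Xi y (n+1) ⊆ S Xi y (n+2) \ {c} := by
    rintro _ ⟨x, hx, rfl⟩
    refine ⟨nb_S_subset Xi y (n+1) ⟨g⁻¹, hsymm g hg, x, hx, rfl⟩, ?_⟩
    intro hxc
    have hxc' : g⁻¹ • x = c := hxc
    apply hz2
    rw [← hxc']
    simpa using hx
  have h2c : (S Xi y (n+1)).ncard ≤ (S Xi y (n+2)).ncard - 1 := by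
    rw [← Set.ncard_image_of_injective (S Xi y (n+1)) (MulAction.injective (g⁻¹)),
      ← Set.ncard_sdiff_singleton_of_mem hcmem]
    exact Set.ncard_le_ncard h2 (Set.toFinite _)
  have hpos : 0 < (S Xi y (n+2)).ncard := (Set.ncard_pos (Set.toFinite _)).2 ⟨c, hcmem⟩
  omega

theorem card_lower (Xi : Set G) (hsymm : ∀ h ∈ Xi, h⁻¹ ∈ Xi) (hne : Xi.Nonempty) [Finite X]
    (y : X) (n : ℕ) (h : (S Xi y (n+2) \ S Xi y n).Nonempty) :
    n + 1 ≤ (S Xi y (n+1)).ncard := by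
  induction n using Nat.strong_induction_on with
  | _ n ih =>
    match n, ih, h with
    | 0, _, _ => simp [S]
    | 1, _, h =>
      have := card_step Xi hsymm hne y 0 h
      simpa [S] using this
    | (n+2), ih, h =>
      have h1 := card_step Xi hsymm hne y (n+1) h
      have h2 := ih n (by omega) (D_pred Xi y n (D_pred Xi y (n+1) h))
      have h1' : (S Xi y (n + 1)).ncard + 2 ≤ (S Xi y (n + 3)).ncard := h1
      show n + 3 ≤ (S Xi y (n+3)).ncard
      omega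

/-- A nonempty layer has index at most the number of points. -/
theorem layer_le_card (Xi : Set G) (hsymm : ∀ h ∈ Xi, h⁻¹ ∈ Xi) (hne : Xi.Nonempty) [Finite X]
    (y : X) (n : ℕ) (h : (S Xi y (n+2) \ S Xi y n).Nonempty) :
    n + 1 ≤ Nat.card X := by
  refine (card_lower Xi hsymm hne y n h).trans ?_
  rw [← Set.ncard_univ]
  exact Set.ncard_le_ncard (Set.subset_univ _) (Set.toFinite _)

/-- The recursion for the layers. -/
theorem layer_rec (Xi : Set G) (hsymm : ∀ h ∈ Xi, h⁻¹ ∈ Xi) (y : X) (n : ℕ) :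
    nb Xi (S Xi y (n+2) \ S Xi y n) \ (S Xi y (n+1) \ S Xi y (n-1)) =
      S Xi y (n+3) \ S Xi y (n+1) := by
  ext z
  constructor
  · rintro ⟨⟨g, hg, c, ⟨hc1, hc2⟩, rfl⟩, hz⟩
    refine ⟨⟨g, hg, c, hc1, rfl⟩, fun hz1 => ?_⟩
    have hz2 : g • c ∈ S Xi y (n-1) := by
      by_contra hcon
      exact hz ⟨hz1, hcon⟩
    cases n with
    | zero => exact absurd hz2 (by simp [S])
    | succ n =>
      apply hc2
      refine nb_S_subset Xi y n ⟨g⁻¹, hsymm g hg, g • c, hz2, by simp⟩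
  · rintro ⟨⟨g, hg, c, hc, rfl⟩, hz2⟩
    refine ⟨⟨g, hg, c, ⟨hc, fun hc' => hz2 ?_⟩, rfl⟩, fun hz' => hz2 hz'.1⟩
    exact nb_S_subset Xi y n ⟨g, hg, c, hc', rfl⟩

end Pool.Agent.V1119.Flood
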