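import Mathlib
import Pool.Agent.Helper270.WPB

/-!
Computability tools: free reduction is primitive recursive, substitution is primitive recursive,
and the undecidable membership problem of Mikhailova for a finitely generated submonoid of a
direct product of two free groups.
-/

set_option autoImplicit false

namespace Pool.Agent.V1119.Comp

/-- Words over `n` letters and their inverses. -/
abbrev Wd (n : ℕ) := List (Fin n × Bool)

lemma primrec_reduce (n : ℕ) : Primrec (FreeGroup.reduce (α := Fin n)) := by
  have h : (FreeGroup.reduce (α := Fin n)) = fun L => L.foldr (fun hd1 ih =>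
      List.casesOn ih [hd1] fun hd2 tl2 =>
        if hd1.1 = hd2.1 ∧ hd1.2 = not hd2.2 then tl2 else hd1 :: hd2 :: tl2) [] := by
    funext L
    induction L with
    | nil => rfl
    | cons x xs ih =>
      rw [List.foldr_cons, ← ih]
      rfl
  rw [h]
  have hh : Primrec₂ (fun (a : Wd n × ((Fin n × Bool) × Wd n)) (b : (Fin n × Bool) × Wd n) =>
      if a.2.1.1 = b.1.1 ∧ a.2.1.2 = (!b.1.2) then b.2 else a.2.1 :: b.1 :: b.2) := by
    refine Primrec.ite ?_ ?_ ?_
    · refine PrimrecPred.and ?_ ?_
      · exact Primrec.eq.comp (Primrec.fst.comp (Primrec.fst.comp (Primrec.snd.comp Primrec.fst)))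
          (Primrec.fst.comp (Primrec.fst.comp Primrec.snd))
      · exact Primrec.eq.comp (Primrec.snd.comp (Primrec.fst.comp (Primrec.snd.comp Primrec.fst)))
          (Primrec.not.comp (Primrec.snd.comp (Primrec.fst.comp Primrec.snd)))
    · exact Primrec.snd.comp Primrec.snd
    · exact Primrec.list_cons.comp (Primrec.fst.comp (Primrec.snd.comp Primrec.fst))
        (Primrec.list_cons.comp (Primrec.fst.comp Primrec.snd) (Primrec.snd.comp Primrec.snd))
  refine Primrec.list_foldr (f := fun l : Wd n => l) (g := fun _ => ([] : Wd n))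
    (h := fun _ (p : (Fin n × Bool) × Wd n) => (List.casesOn p.2 [p.1] fun hd2 tl2 =>
        if p.1.1 = hd2.1 ∧ p.1.2 = not hd2.2 then tl2 else p.1 :: hd2 :: tl2 : Wd n))
      Primrec.id (Primrec.const []) ?_
  exact Primrec.list_casesOn (f := fun a : Wd n × ((Fin n × Bool) × Wd n) => a.2.2)
    (Primrec.snd.comp Primrec.snd)
    (Primrec.list_cons.comp (Primrec.fst.comp Primrec.snd) (Primrec.const [])) hh

/-- The word problem of a free group is primitive recursive. -/
lemma primrecPred_one (n : ℕ) : PrimrecPred (fun w : Wd n => FreeGroup.mk w = 1) := by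
  refine (Primrec.eq.comp (primrec_reduce n) (Primrec.const ([] : Wd n))).of_eq ?_
  intro w
  rw [FreeGroup.one_eq_mk, ← FreeGroup.toWord_inj, FreeGroup.toWord_mk, FreeGroup.toWord_mk]
  rfl

/-- Substitution of words for letters. -/
def subst {j n : ℕ} (T : Fin j × Bool → Wd n) (w : Wd j) : Wd n := w.flatMap T

lemma primrec_subst {j n : ℕ} (T : Fin j × Bool → Wd n) : Primrec (subst T) :=
  Primrec.list_flatMap Primrec.id ((Primrec.dom_finite T).comp Primrec.snd).to₂

/-- A word with given value, for each letter. -/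
noncomputable def tab {j n : ℕ} {A : Type*} [Group A] (y : Fin n → A)
    (hy : Function.Surjective (FreeGroup.lift y)) (x : Fin j → A) (c : Fin j × Bool) : Wd n :=
  (Function.surjInv hy (cond c.2 (x c.1) (x c.1)⁻¹)).toWord

lemma tab_spec {j n : ℕ} {A : Type*} [Group A] (y : Fin n → A)
    (hy : Function.Surjective (FreeGroup.lift y)) (x : Fin j → A) (c : Fin j × Bool) :
    FreeGroup.lift y (FreeGroup.mk (tab y hy x c)) = cond c.2 (x c.1) (x c.1)⁻¹ := by
  rw [tab, FreeGroup.mk_toWord]
  exact Function.surjInv_eq hy _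

lemma mk_cons {n : ℕ} (c : Fin n × Bool) (w : Wd n) :
    FreeGroup.mk (c :: w) = FreeGroup.mk [c] * FreeGroup.mk w := by
  rw [FreeGroup.mul_mk]; rfl

lemma lift_mk_single {n : ℕ} {A : Type*} [Group A] (x : Fin n → A) (c : Fin n × Bool) :
    FreeGroup.lift x (FreeGroup.mk [c]) = cond c.2 (x c.1) (x c.1)⁻¹ := by
  obtain ⟨i, b⟩ := c
  cases b <;> simp

lemma subst_spec {j n : ℕ} {A : Type*} [Group A] (y : Fin n → A) (x : Fin j → A)
    (T : Fin j × Bool → Wd n)
    (hT : ∀ c, FreeGroup.lift y (FreeGroup.mk (T c)) = cond c.2 (x c.1) (x c.1)⁻¹) (w : Wd j) :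
    FreeGroup.lift y (FreeGroup.mk (subst T w)) = FreeGroup.lift x (FreeGroup.mk w) := by
  induction w with
  | nil => simp [subst]
  | cons c w ih =>
    have h1 : subst T (c :: w) = T c ++ subst T w := rfl
    rw [h1, ← FreeGroup.mul_mk, map_mul, ih, hT, mk_cons c w, map_mul, lift_mk_single]

/-- Decidability of the word problem passes to every finite tuple of elements. -/
lemma wp_transfer {j n : ℕ} {A : Type*} [Group A] (y : Fin n → A)
    (hy : Function.Surjective (FreeGroup.lift y)) (x : Fin j → A)
    (h : ComputablePred (fun w : Wd n => FreeGroup.lift y (FreeGroup.mk w) = 1)) :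
    ComputablePred (fun w : Wd j => FreeGroup.lift x (FreeGroup.mk w) = 1) := by
  have h1 := ComputablePred.computable_of_manyOneReducible
    (p := fun w : Wd j => FreeGroup.lift y (FreeGroup.mk (subst (tab y hy x) w)) = 1)
    (q := fun w : Wd n => FreeGroup.lift y (FreeGroup.mk w) = 1)
    ⟨subst (tab y hy x), (primrec_subst _).to_comp, fun w => Iff.rfl⟩ h
  refine h1.of_eq ?_
  intro w
  rw [subst_spec y x _ (tab_spec y hy x)]

lemma cp_comp {α β : Type*} [Primcodable α] [Primcodable β] {p : β → Prop} {f : α → β}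
    (h : ComputablePred p) (hf : Computable f) : ComputablePred (fun a => p (f a)) :=
  ComputablePred.computable_of_manyOneReducible ⟨f, hf, fun _ => Iff.rfl⟩ h

lemma cp_and {α : Type*} [Primcodable α] {p q : α → Prop}
    (hp : ComputablePred p) (hq : ComputablePred q) : ComputablePred (fun a => p a ∧ q a) := by
  obtain ⟨_, h1⟩ := hp
  obtain ⟨_, h2⟩ := hq
  refine ⟨inferInstance, ?_⟩
  refine ((Primrec.and.to_comp.comp h1 h2)).of_eq ?_
  intro a
  simp

section Mikhailova

variable {m : ℕ}

/-- The generators of the fibre product. -/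
def mikGen (R : Finset (FreeGroup (Fin m))) : Set (FreeGroup (Fin m) × FreeGroup (Fin m)) :=
  Set.range (fun i => (FreeGroup.of i, FreeGroup.of i)) ∪ (fun r => (r, 1)) '' (R : Set _)

lemma mik_finite (R : Finset (FreeGroup (Fin m))) : (mikGen R).Finite :=
  (Set.finite_range _).union ((Finset.finite_toSet R).image _)

lemma diag_mem (R : Finset (FreeGroup (Fin m))) (g : FreeGroup (Fin m)) :
    (g, g) ∈ Subgroup.closure (mikGen R) := by
  induction g using FreeGroup.induction_on with
  | C1 => exact one_mem _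
  | of i => exact Subgroup.subset_closure (Or.inl ⟨i, rfl⟩)
  | inv_of i h => exact inv_mem h
  | mul x y hx hy => exact mul_mem hx hy

lemma ker_mem (R : Finset (FreeGroup (Fin m))) (g : FreeGroup (Fin m))
    (hg : g ∈ Subgroup.normalClosure (R : Set (FreeGroup (Fin m)))) :
    (g, 1) ∈ Subgroup.closure (mikGen R) := by
  let K : Subgroup (FreeGroup (Fin m)) :=
    (Subgroup.closure (mikGen R)).comap (MonoidHom.inl (FreeGroup (Fin m)) (FreeGroup (Fin m)))
  have hK : K.Normal := by
    refine ⟨fun n hn g => ?_⟩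
    have h1 : (g * n * g⁻¹, (1 : FreeGroup (Fin m))) = (g, g) * (n, 1) * (g, g)⁻¹ := by
      simp
    change (g * n * g⁻¹, (1 : FreeGroup (Fin m))) ∈ Subgroup.closure (mikGen R)
    rw [h1]
    exact mul_mem (mul_mem (diag_mem R g) hn) (inv_mem (diag_mem R g))
  have hle : Subgroup.normalClosure (R : Set (FreeGroup (Fin m))) ≤ K := by
    apply Subgroup.normalClosure_le_normal
    intro r hr
    exact Subgroup.subset_closure (Or.inr ⟨r, hr, rfl⟩)
  exact hle hg

lemma mem_closure_iff (R : Finset (FreeGroup (Fin m))) (u v : FreeGroup (Fin m)) :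
    (u, v) ∈ Subgroup.closure (mikGen R) ↔
      u * v⁻¹ ∈ Subgroup.normalClosure (R : Set (FreeGroup (Fin m))) := by
  constructor
  · intro h
    have hq : ∀ p ∈ Subgroup.closure (mikGen R),
        (QuotientGroup.mk' (Subgroup.normalClosure (R : Set (FreeGroup (Fin m))))) p.1 =
        (QuotientGroup.mk' (Subgroup.normalClosure (R : Set (FreeGroup (Fin m))))) p.2 := by
      intro p hp
      induction hp using Subgroup.closure_induction with
      | mem x hx =>
        rcases hx with ⟨i, rfl⟩ | ⟨r, hr, rfl⟩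
        · rfl
        · simp only [map_one]
          exact (QuotientGroup.eq_one_iff r).2 (Subgroup.subset_normalClosure hr)
      | one => rfl
      | mul x y _ _ hx hy =>
        rw [Prod.fst_mul, Prod.snd_mul, map_mul, map_mul, hx, hy]
      | inv x _ hx =>
        rw [Prod.fst_inv, Prod.snd_inv, map_inv, map_inv, hx]
    have := hq _ h
    rw [← QuotientGroup.ker_mk' (Subgroup.normalClosure (R : Set (FreeGroup (Fin m)))),
      MonoidHom.mem_ker, map_mul, map_inv]
    simp only at this
    rw [this, mul_inv_cancel]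
  · intro h
    have h1 : (u, v) = (u * v⁻¹, 1) * (v, v) := by simp
    rw [h1]
    exact mul_mem (ker_mem R _ h) (diag_mem R v)

/-- Mikhailova's theorem: there is a finitely generated submonoid (in fact a subgroup) of a direct
product of two copies of a free group of finite rank whose membership problem is undecidable. -/
theorem mikhailova : ∃ (m l : ℕ) (t : Fin l → FreeGroup (Fin m) × FreeGroup (Fin m))
    (W : ℕ → Wd m), Computable W ∧
    ¬ ComputablePred (fun n => (FreeGroup.mk (W n), (1 : FreeGroup (Fin m))) ∈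
      Submonoid.closure (Set.range t)) := by
  obtain ⟨m, R, W, hW, hu⟩ := Pool.Agent.Helper270.WP.word_problem
  have hfin : (mikGen R ∪ (mikGen R)⁻¹).Finite := (mik_finite R).union (mik_finite R).inv
  obtain ⟨l, t, ht⟩ : ∃ (l : ℕ) (t : Fin l → FreeGroup (Fin m) × FreeGroup (Fin m)),
      Set.range t = mikGen R ∪ (mikGen R)⁻¹ := by
    have : Finite ↥(mikGen R ∪ (mikGen R)⁻¹) := hfin
    obtain ⟨l, ⟨e⟩⟩ := Finite.exists_equiv_fin ↥(mikGen R ∪ (mikGen R)⁻¹)
    refine ⟨l, fun i => (e.symm i : _), ?_⟩
    ext x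
    constructor
    · rintro ⟨i, rfl⟩
      exact (e.symm i).2
    · intro hx
      exact ⟨e ⟨x, hx⟩, by simp⟩
  refine ⟨m, l, t, W, hW, fun h => hu (h.of_eq ?_)⟩
  intro n
  rw [ht, ← Subgroup.closure_toSubmonoid, Subgroup.mem_toSubmonoid, mem_closure_iff]
  simp

end Mikhailova

end Pool.Agent.V1119.Comp
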